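import Pool.Agent.N24.KM.Stm

/-!
# Metric sequences: almost everywhere convergence from the second moment (helper199)
-/

set_option autoImplicit false

namespace Pool.Agent.N24.KM

open MeasureTheory Filter Topology Pool.Agent.N24.RW

namespace Ae

/-- the integral part of the cube root -/
def cr (N : ℕ) : ℕ := Nat.findGreatest (fun m => m ^ 3 ≤ N) N

lemma cr_le (N : ℕ) : cr N ^ 3 ≤ N := by
  have h := Nat.findGreatest_spec (P := fun m => m ^ 3 ≤ N) (m := 0) (n := N) (Nat.zero_le _)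
    (by simp)
  exact h

lemma le_cr {b N : ℕ} (h : b ^ 3 ≤ N) : b ≤ cr N :=
  Nat.le_findGreatest ((Nat.le_self_pow (by norm_num) b).trans h) h

lemma lt_cr (N : ℕ) : N < (cr N + 1) ^ 3 := by
  by_contra h
  have := le_cr (not_lt.1 h)
  omega

lemma cr_tendsto : Tendsto cr atTop atTop := by
  refine tendsto_atTop.2 fun b => ?_
  filter_upwards [eventually_ge_atTop (b ^ 3)] with N hN
  exact le_cr hN

lemma step {S : ℕ → ℂ} (hS : ∀ n, ‖S (n + 1) - S n‖ ≤ 1) {m N : ℕ} (h : m ≤ N) :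
    ‖S N‖ ≤ ‖S m‖ + ((N : ℝ) - m) := by
  induction N, h using Nat.le_induction with
  | base => simp
  | succ N h ih =>
    have h1 : ‖S (N + 1)‖ ≤ ‖S (N + 1) - S N‖ + ‖S N‖ := by
      have := norm_add_le (S (N + 1) - S N) (S N)
      rwa [sub_add_cancel] at this
    have h2 := hS N
    push_cast
    linarith

lemma det {S : ℕ → ℂ} (hS : ∀ n, ‖S (n + 1) - S n‖ ≤ 1)
    (h : Tendsto (fun k : ℕ => ‖S (k ^ 3)‖ / ((k : ℝ) ^ 3)) atTop (𝓝 0)) :
    Tendsto (fun N : ℕ => ‖S N‖ / (N : ℝ)) atTop (𝓝 0) := by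
  have h1 : Tendsto (fun k : ℕ => ‖S (k ^ 3)‖ / ((k : ℝ) ^ 3) + 7 / (k : ℝ)) atTop (𝓝 0) := by
    have h2 : Tendsto (fun k : ℕ => 7 / (k : ℝ)) atTop (𝓝 0) :=
      tendsto_const_div_atTop_nhds_zero_nat 7
    have h3 := h.add h2
    rwa [add_zero] at h3
  have h2 := h1.comp cr_tendsto
  refine squeeze_zero' (Eventually.of_forall fun N => by positivity) ?_ h2
  filter_upwards [eventually_ge_atTop 1] with N hN
  show ‖S N‖ / (N : ℝ) ≤ ‖S (cr N ^ 3)‖ / ((cr N : ℝ) ^ 3) + 7 / (cr N : ℝ)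
  have h3 : 1 ≤ cr N := le_cr (by simpa using hN)
  have h4 := cr_le N
  have h5 := lt_cr N
  have h6 := step hS h4
  obtain ⟨m, hm⟩ : ∃ m, m = cr N := ⟨_, rfl⟩
  rw [← hm] at h3 h4 h5 h6 ⊢
  have hm1 : (1 : ℝ) ≤ m := by exact_mod_cast h3
  have hm4 : (m : ℝ) ^ 3 ≤ N := by exact_mod_cast h4
  have hm5 : (N : ℝ) < ((m : ℝ) + 1) ^ 3 := by exact_mod_cast h5
  have hN0 : (0 : ℝ) < N := by exact_mod_cast hN
  have hm0 : (0 : ℝ) < (m : ℝ) ^ 3 := by positivity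
  push_cast at h6
  have h7 : ‖S N‖ ≤ ‖S (m ^ 3)‖ + 7 * (m : ℝ) ^ 2 := by nlinarith
  have h8 : ‖S (m ^ 3)‖ / ((m : ℝ) ^ 3) + 7 / (m : ℝ) =
      (‖S (m ^ 3)‖ + 7 * (m : ℝ) ^ 2) / (m : ℝ) ^ 3 := by
    have : (m : ℝ) ≠ 0 := by positivity
    field_simp
  rw [h8]
  calc ‖S N‖ / (N : ℝ) ≤ (‖S (m ^ 3)‖ + 7 * (m : ℝ) ^ 2) / N := by gcongr
    _ ≤ (‖S (m ^ 3)‖ + 7 * (m : ℝ) ^ 2) / (m : ℝ) ^ 3 := by gcongr

lemma cube_rpow {y : ℝ} (hy : 0 < y) : y ^ 3 * Real.sqrt (y ^ 3) / (y ^ 3) ^ 2 =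
    1 / y ^ (3 / 2 : ℝ) := by
  have h1 : y ^ (3 / 2 : ℝ) * y ^ (3 / 2 : ℝ) = y ^ 3 := by
    rw [← Real.rpow_add hy, ← Real.rpow_natCast y 3]
    norm_num
  have h2 : Real.sqrt (y ^ 3) = y ^ (3 / 2 : ℝ) := by
    rw [← h1]
    exact Real.sqrt_mul_self (by positivity)
  have h3 : 0 < y ^ (3 / 2 : ℝ) := by positivity
  rw [h2, div_eq_div_iff (by positivity) (by positivity), one_mul, mul_assoc, h1]
  ring

end Ae

open Ae

theorem t_AE : S_AE := by
  intro X _ μ _ u C hu hb hC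
  obtain ⟨S, hS⟩ : ∃ S : ℕ → X → ℂ, ∀ N x, S N x = ∑ n ∈ Finset.range N, u n x :=
    ⟨fun N x => ∑ n ∈ Finset.range N, u n x, fun _ _ => rfl⟩
  have hSm : ∀ N, Measurable (S N) := by
    intro N
    have : S N = fun x => ∑ n ∈ Finset.range N, u n x := funext fun x => hS N x
    rw [this]
    exact Finset.measurable_sum _ fun n _ => hu n
  have hSb : ∀ N x, ‖S N x‖ ≤ N := by
    intro N x
    rw [hS]
    refine (norm_sum_le _ _).trans ((Finset.sum_le_sum fun n _ => hb n x).trans ?_)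
    simp
  have hSs : ∀ x n, ‖S (n + 1) x - S n x‖ ≤ 1 := by
    intro x n
    rw [hS, hS, Finset.sum_range_succ, add_sub_cancel_left]
    exact hb n x
  have hC' : ∀ N : ℕ, ∫ x, ‖S N x‖ ^ 2 ∂μ ≤ |C| * (N : ℝ) * Real.sqrt N := by
    intro N
    have h1 := hC N
    rw [integral_congr_ae (Eventually.of_forall fun x => by
      show ‖S N x‖ ^ 2 = ‖∑ n ∈ Finset.range N, u n x‖ ^ 2
      rw [hS])]
    refine h1.trans ?_
    rw [mul_assoc, mul_assoc]
    exact mul_le_mul_of_nonneg_right (le_abs_self C) (by positivity)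
  obtain ⟨v, hv⟩ : ∃ v : ℕ → X → ℝ, ∀ k x,
      v k x = ‖S ((k + 1) ^ 3) x‖ ^ 2 / (((k + 1 : ℕ) : ℝ) ^ 3) ^ 2 := ⟨_, fun _ _ => rfl⟩
  have hvm : ∀ k, Measurable (v k) := by
    intro k
    have : v k = fun x => ‖S ((k + 1) ^ 3) x‖ ^ 2 / (((k + 1 : ℕ) : ℝ) ^ 3) ^ 2 :=
      funext fun x => hv k x
    rw [this]
    exact ((hSm _).norm.pow_const 2).div_const _
  have hv0 : ∀ k x, 0 ≤ v k x := fun k x => by rw [hv]; positivity
  have h1 : ∀ k, ∫⁻ x, ENNReal.ofReal (v k x) ∂μ ≤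
      ENNReal.ofReal (|C| * (1 / ((k + 1 : ℕ) : ℝ) ^ (3 / 2 : ℝ))) := by
    intro k
    have hi : Integrable (fun x => ‖S ((k + 1) ^ 3) x‖ ^ 2) μ := by
      refine Integrable.of_bound ((hSm _).norm.pow_const 2).aestronglyMeasurable
        ((((k + 1) ^ 3 : ℕ) : ℝ) ^ 2) (Eventually.of_forall fun x => ?_)
      rw [Real.norm_of_nonneg (by positivity)]
      exact pow_le_pow_left₀ (norm_nonneg _) (hSb _ x) 2
    have hi2 : Integrable (v k) μ := by
      have : v k = fun x => ‖S ((k + 1) ^ 3) x‖ ^ 2 / (((k + 1 : ℕ) : ℝ) ^ 3) ^ 2 :=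
        funext fun x => hv k x
      rw [this]
      exact hi.div_const _
    rw [← ofReal_integral_eq_lintegral_ofReal hi2 (Eventually.of_forall fun x => hv0 k x)]
    apply ENNReal.ofReal_le_ofReal
    have hy : (0 : ℝ) < ((k + 1 : ℕ) : ℝ) := by positivity
    rw [integral_congr_ae (Eventually.of_forall fun x => hv k x), integral_div,
      ← cube_rpow hy, ← mul_div_assoc]
    refine div_le_div_of_nonneg_right ?_ (by positivity)
    have h2 := hC' ((k + 1) ^ 3)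
    rw [mul_assoc] at h2
    have h3 : (((k + 1) ^ 3 : ℕ) : ℝ) = ((k + 1 : ℕ) : ℝ) ^ 3 := by push_cast; ring
    rw [h3] at h2
    exact h2
  have hsum : Summable (fun k : ℕ => |C| * (1 / ((k + 1 : ℕ) : ℝ) ^ (3 / 2 : ℝ))) := by
    refine Summable.mul_left _ ?_
    exact (summable_nat_add_iff (f := fun k : ℕ => 1 / (k : ℝ) ^ (3 / 2 : ℝ)) 1).2
      (Real.summable_one_div_nat_rpow.2 (by norm_num))
  have h2 : ∫⁻ x, ∑' k, ENNReal.ofReal (v k x) ∂μ ≠ ⊤ := by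
    rw [lintegral_tsum fun k => (hvm k).ennreal_ofReal.aemeasurable]
    refine ne_top_of_le_ne_top ?_ (ENNReal.tsum_le_tsum h1)
    rw [← ENNReal.ofReal_tsum_of_nonneg (fun k => by positivity) hsum]
    exact ENNReal.ofReal_ne_top
  have h3 := ae_lt_top (Measurable.ennreal_tsum fun k => (hvm k).ennreal_ofReal) h2
  filter_upwards [h3] with x hx
  have h4 := ENNReal.tendsto_atTop_zero_of_tsum_ne_top hx.ne
  have h5 : Tendsto (fun k => v k x) atTop (𝓝 0) := by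
    have h6 := (ENNReal.tendsto_toReal ENNReal.zero_ne_top).comp h4
    refine (h6.congr fun k => ?_)
    exact ENNReal.toReal_ofReal (hv0 k x)
  have h6 : Tendsto (fun k : ℕ => ‖S (k ^ 3) x‖ / ((k : ℝ) ^ 3)) atTop (𝓝 0) := by
    rw [← tendsto_add_atTop_iff_nat 1]
    have h7 := (Real.continuous_sqrt.tendsto 0).comp h5
    rw [Real.sqrt_zero] at h7
    refine h7.congr fun k => ?_
    show Real.sqrt (v k x) = _
    rw [hv, Real.sqrt_div (by positivity), Real.sqrt_sq (norm_nonneg _),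
      Real.sqrt_sq (by positivity)]
  have h7 := det (S := fun N => S N x) (fun n => hSs x n) h6
  rw [tendsto_zero_iff_norm_tendsto_zero]
  refine h7.congr fun N => ?_
  rw [norm_mul, ← hS, norm_div, norm_one, Complex.norm_natCast]
  ring

end Pool.Agent.N24.KM
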