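import Pool.Agent.N24.KM.Stm

/-!
# Metric sequences of integral vectors: residue classes and pronull sets (helper286)
-/

set_option autoImplicit false

namespace Pool.Agent.N24.KM

open MeasureTheory Filter Topology Pool.Agent.N24.RW

namespace Kk

/-- one modulus -/
theorem step (hW : S_WEY) (hT : S_TOR) {ι : Type} [Fintype ι] (B : Set (ι → ℤ)) (a b : ι → ℝ)
    (f : ι → ℕ → ℝ → ℝ) (hab : ∀ i, a i < b i) (hf : ∀ i, Koksma (a i) (b i) (f i)) (q : ℕ)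
    (hq : 0 < q) (η : ℝ)
    (hB : ((((fun (c : ι → ℤ) (i : ι) => (c i : ZMod q)) '' B).ncard : ℕ) : ℝ) ≤
      η * (q : ℝ) ^ Fintype.card ι) :
    ∀ᵐ α : ι → ℝ, (∀ i, α i ∈ Set.Icc (a i) (b i)) → ∀ δ : ℝ, 0 < δ → ∀ᶠ N : ℕ in atTop,
      (({n : ℕ | n < N ∧ (fun i => ⌊f i n (α i)⌋) ∈ B}.ncard : ℕ) : ℝ) ≤ (η + δ) * N := by
  have : NeZero q := ⟨hq.ne'⟩
  have hqr : (0 : ℝ) < q := by exact_mod_cast hq
  have h1 : ∀ h : ι → ℤ, ∀ᵐ α : ι → ℝ, h ≠ 0 → (∀ i, α i ∈ Set.Icc (a i) (b i)) →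
      Tendsto (fun N : ℕ => (1 / (N : ℂ)) * ∑ n ∈ Finset.range N,
        e (∑ i, ((h i : ℝ) / q) * f i n (α i))) atTop (𝓝 0) := by
    intro h
    by_cases h0 : h = 0
    · exact Eventually.of_forall fun α h2 => absurd h0 h2
    have h2 : (fun i => (h i : ℝ) / q) ≠ 0 := by
      intro h3
      apply h0
      funext i
      have h4 := congrFun h3 i
      simp only [Pi.zero_apply] at h4
      rw [div_eq_zero_iff] at h4
      rcases h4 with h4 | h4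
      · exact_mod_cast h4
      · exact absurd h4 hqr.ne'
    filter_upwards [hW ι a b f hab hf _ h2] with α hα _ hbox
    exact hα hbox
  have h2 := ae_all_iff.2 h1
  filter_upwards [h2] with α hα hbox δ hδ
  obtain ⟨I, hI⟩ : ∃ I : Set (ι → ZMod q), I = (fun (c : ι → ℤ) (i : ι) => (c i : ZMod q)) '' B :=
    ⟨_, rfl⟩
  rw [← hI] at hB
  have hIf : I.Finite := Set.toFinite _
  have hcl : ∀ᶠ N : ℕ in atTop, ∀ c : ι → ZMod q,
      (({n : ℕ | n < N ∧ ∀ i, ((⌊f i n (α i)⌋ : ℤ) : ZMod q) = c i}.ncard : ℕ) : ℝ) ≤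
      (((q : ℝ) ^ Fintype.card ι)⁻¹ + δ / (I.ncard + 1)) * N := by
    rw [eventually_all]
    intro c
    refine hT ι q hq (fun n i => f i n (α i)) ?_ c (δ / (I.ncard + 1)) (by positivity)
    intro h h0
    have h3 := hα h h0 hbox
    refine h3.congr fun N => ?_
    congr 1
    refine Finset.sum_congr rfl fun n _ => ?_
    congr 1
    refine Finset.sum_congr rfl fun i _ => ?_
    ring
  filter_upwards [hcl] with N hN
  have hsub : {n : ℕ | n < N ∧ (fun i => ⌊f i n (α i)⌋) ∈ B} ⊆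
      ⋃ c ∈ hIf.toFinset, {n : ℕ | n < N ∧ ∀ i, ((⌊f i n (α i)⌋ : ℤ) : ZMod q) = c i} := by
    intro n hn
    rw [Set.mem_iUnion₂]
    refine ⟨fun i => ((⌊f i n (α i)⌋ : ℤ) : ZMod q), ?_, hn.1, fun i => rfl⟩
    rw [Set.Finite.mem_toFinset, hI]
    exact ⟨_, hn.2, rfl⟩
  have hfin : (⋃ c ∈ hIf.toFinset,
      {n : ℕ | n < N ∧ ∀ i, ((⌊f i n (α i)⌋ : ℤ) : ZMod q) = c i}).Finite := by
    refine (Set.finite_Iio N).subset ?_
    intro n hn
    rw [Set.mem_iUnion₂] at hn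
    obtain ⟨c, _, hn⟩ := hn
    exact hn.1
  have h3 := (Set.ncard_le_ncard hsub hfin).trans
    (Finset.set_ncard_biUnion_le hIf.toFinset
      (fun c => {n : ℕ | n < N ∧ ∀ i, ((⌊f i n (α i)⌋ : ℤ) : ZMod q) = c i}))
  have h4 : (({n : ℕ | n < N ∧ (fun i => ⌊f i n (α i)⌋) ∈ B}.ncard : ℕ) : ℝ) ≤
      ∑ c ∈ hIf.toFinset,
        (({n : ℕ | n < N ∧ ∀ i, ((⌊f i n (α i)⌋ : ℤ) : ZMod q) = c i}.ncard : ℕ) : ℝ) := by
    exact_mod_cast h3
  refine h4.trans ((Finset.sum_le_sum fun c _ => hN c).trans ?_)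
  rw [Finset.sum_const, ← Set.ncard_eq_toFinset_card I hIf, nsmul_eq_mul, ← mul_assoc]
  refine mul_le_mul_of_nonneg_right ?_ (Nat.cast_nonneg N)
  rw [mul_add]
  have hp : (0 : ℝ) < (q : ℝ) ^ Fintype.card ι := by positivity
  have h5 : (I.ncard : ℝ) * ((q : ℝ) ^ Fintype.card ι)⁻¹ ≤ η := by
    rw [← div_eq_mul_inv, div_le_iff₀ hp]
    exact hB
  have h6 : (I.ncard : ℝ) * (δ / (I.ncard + 1)) ≤ δ := by
    rw [mul_div_assoc', div_le_iff₀ (by positivity)]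
    nlinarith [Nat.cast_nonneg (α := ℝ) I.ncard]
  exact add_le_add h5 h6

end Kk

/-- **KOK.** the first part of `Metric` -/
theorem t_KOK (hW : S_WEY) (hT : S_TOR) : S_KOK := by
  intro ι _ B hB a b f hab hf
  have h1 : ∀ k : ℕ, ∀ᵐ α : ι → ℝ, (∀ i, α i ∈ Set.Icc (a i) (b i)) → ∀ δ : ℝ, 0 < δ →
      ∀ᶠ N : ℕ in atTop, (({n : ℕ | n < N ∧ (fun i => ⌊f i n (α i)⌋) ∈ B}.ncard : ℕ) : ℝ) ≤
        (1 / ((k : ℝ) + 1) + δ) * N := by
    intro k
    obtain ⟨q, hq, _, hqB⟩ := hB 1 one_pos (1 / ((k : ℝ) + 1)) (by positivity)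
    exact Kk.step hW hT B a b f hab hf q hq _ hqB
  have h2 := ae_all_iff.2 h1
  filter_upwards [h2] with α hα hbox
  unfold Rarely
  rw [tendsto_order]
  constructor
  · intro u hu
    refine Eventually.of_forall fun N => lt_of_lt_of_le hu ?_
    positivity
  · intro u hu
    obtain ⟨k, hk⟩ := exists_nat_gt (4 / u)
    have h3 := hα k hbox (u / 4) (by linarith)
    filter_upwards [h3, eventually_gt_atTop 0] with N hN hN0
    have h4 : 1 / ((k : ℝ) + 1) ≤ u / 4 := by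
      rw [div_le_div_iff₀ (by positivity) (by norm_num)]
      rw [div_lt_iff₀ hu] at hk
      nlinarith
    have hNr : (0 : ℝ) < N := by exact_mod_cast hN0
    rw [div_lt_iff₀ hNr]
    refine hN.trans_lt ?_
    exact mul_lt_mul_of_pos_right (by linarith) hNr

end Pool.Agent.N24.KM
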