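import Pool.Agent.N24.KM.Stm

/-!
# Metric sequences of integral vectors: linear sequences and powers (helper286)
-/

set_option autoImplicit false

namespace Pool.Agent.N24.KM

open MeasureTheory Filter Topology Pool.Agent.N24.RW

namespace Mt

theorem exists_bound {ι : Type} [Fintype ι] (α : ι → ℝ) : ∃ j : ℕ, ∀ i, |α i| ≤ j := by
  obtain ⟨M, hM⟩ := (Set.finite_range (fun i => |α i|)).bddAbove
  obtain ⟨j, hj⟩ := exists_nat_ge M
  exact ⟨j, fun i => (hM ⟨i, rfl⟩).trans hj⟩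

theorem deriv_lin (c : ℝ) : deriv (fun x : ℝ => c * x) = fun _ => c := by
  funext x
  rw [deriv_const_mul _ differentiableAt_id]
  simp

theorem deriv_pow' (c : ℝ) (k : ℕ) :
    deriv (fun x : ℝ => c * x ^ k) = fun x => c * k * x ^ (k - 1) := by
  funext x
  rw [deriv_const_mul _ (differentiableAt_pow k)]
  simp
  ring

theorem deriv2_pow (c : ℝ) (k : ℕ) :
    deriv (deriv (fun x : ℝ => c * x ^ k)) =
      fun x => c * k * ((k - 1 : ℕ) : ℝ) * x ^ (k - 1 - 1) := by
  rw [deriv_pow', deriv_pow']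

theorem pw1 {x : ℝ} (hx : 1 ≤ x) {l k : ℕ} (h : l < k) :
    (l : ℝ) * x ^ (l - 1) + 1 ≤ (k : ℝ) * x ^ (k - 1) := by
  have h1 : x ^ (l - 1) ≤ x ^ (k - 1) := pow_le_pow_right₀ hx (by omega)
  have h2 : (1 : ℝ) ≤ x ^ (k - 1) := one_le_pow₀ hx
  have h3 : (l : ℝ) + 1 ≤ k := by exact_mod_cast h
  have h4 : (l : ℝ) * x ^ (l - 1) ≤ l * x ^ (k - 1) := mul_le_mul_of_nonneg_left h1 (by positivity)
  nlinarith

theorem pw2 {x : ℝ} (hx : 1 ≤ x) {l k : ℕ} (h : l < k) :
    (l : ℝ) * ((l - 1 : ℕ) : ℝ) * x ^ (l - 1 - 1) ≤ (k : ℝ) * ((k - 1 : ℕ) : ℝ) * x ^ (k - 1 - 1) := by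
  have h1 : x ^ (l - 1 - 1) ≤ x ^ (k - 1 - 1) := pow_le_pow_right₀ hx (by omega)
  have h2 : (l : ℝ) ≤ k := by exact_mod_cast h.le
  have h3 : ((l - 1 : ℕ) : ℝ) ≤ ((k - 1 : ℕ) : ℝ) := by
    have : l - 1 ≤ k - 1 := by omega
    exact_mod_cast this
  have hx0 : (0 : ℝ) ≤ x := by linarith
  exact mul_le_mul (mul_le_mul h2 h3 (by positivity) (by positivity)) h1 (by positivity)
    (by positivity)

theorem koksma_lin (a : ℕ → ℝ) (δ : ℝ) (hδ : 0 < δ) (h : ∀ m n, m ≠ n → δ ≤ |a m - a n|)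
    (u v : ℝ) : Koksma u v (fun n x => a n * x) := by
  refine ⟨fun n => contDiff_const.mul contDiff_id, δ, hδ, fun m n hmn => ⟨?_, Or.inl ?_⟩⟩
  · intro x _
    rw [deriv_lin, deriv_lin]
    exact h m n hmn
  · intro x _
    rw [deriv_lin, deriv_lin]
    simp

theorem koksma_pow (k : ℕ → ℕ) (ξ : ℝ) (hk : Function.Injective k) (hξ : ξ ≠ 0) (v : ℝ) :
    Koksma 1 v (fun n x => ξ * x ^ k n) := by
  refine ⟨fun n => contDiff_const.mul (contDiff_id.pow _), |ξ|, abs_pos.2 hξ,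
    fun m n hmn => ⟨?_, ?_⟩⟩
  · intro x hx
    rw [deriv_pow', deriv_pow']
    show |ξ| ≤ |ξ * k m * x ^ (k m - 1) - ξ * k n * x ^ (k n - 1)|
    have e1 : ξ * k m * x ^ (k m - 1) - ξ * k n * x ^ (k n - 1) =
        ξ * (k m * x ^ (k m - 1) - k n * x ^ (k n - 1)) := by ring
    rw [e1, abs_mul]
    have h1 : 1 ≤ |(k m : ℝ) * x ^ (k m - 1) - k n * x ^ (k n - 1)| := by
      rcases lt_or_gt_of_ne (fun h => hmn (hk h)) with h | h
      · have := pw1 hx.1 h
        rw [abs_sub_comm]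
        exact le_trans (by linarith) (le_abs_self _)
      · have := pw1 hx.1 h
        exact le_trans (by linarith) (le_abs_self _)
    calc |ξ| = |ξ| * 1 := (mul_one _).symm
      _ ≤ _ := mul_le_mul_of_nonneg_left h1 (abs_nonneg _)
  · have key : ∀ c : ℝ, ∀ l : ℕ, ∀ x : ℝ, deriv (deriv (fun x : ℝ => c * x ^ l)) x =
        c * (l * ((l - 1 : ℕ) : ℝ) * x ^ (l - 1 - 1)) := by
      intro c l x
      rw [deriv2_pow]
      ring
    have hmn' : k m ≠ k n := fun h => hmn (hk h)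
    rcases lt_or_gt_of_ne hmn' with h | h
    · rcases lt_or_gt_of_ne hξ with h0 | h0
      · left
        intro x hx
        rw [key, key]
        have := pw2 hx.1 h
        exact mul_le_mul_of_nonpos_left this h0.le
      · right
        intro x hx
        rw [key, key]
        have := pw2 hx.1 h
        exact mul_le_mul_of_nonneg_left this h0.le
    · rcases lt_or_gt_of_ne hξ with h0 | h0
      · right
        intro x hx
        rw [key, key]
        have := pw2 hx.1 h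
        exact mul_le_mul_of_nonpos_left this h0.le
      · left
        intro x hx
        rw [key, key]
        have := pw2 hx.1 h
        exact mul_le_mul_of_nonneg_left this h0.le

end Mt

open Mt in
/-- **main theorem** -/
theorem t_MET (hK : S_KOK) : S_MET := by
  intro ι _ B hB
  refine ⟨hK ι B hB, ?_, ?_⟩
  · intro a δ hδ ha
    have h1 : ∀ j : ℕ, ∀ᵐ α : ι → ℝ,
        (∀ i, α i ∈ Set.Icc (-((j : ℝ) + 1)) ((j : ℝ) + 1)) →
        Rarely (fun n i => ⌊a i n * α i⌋) B := by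
      intro j
      have hj : (0 : ℝ) ≤ j := Nat.cast_nonneg j
      exact hK ι B hB (fun _ => -((j : ℝ) + 1)) (fun _ => (j : ℝ) + 1) (fun i n x => a i n * x)
        (fun i => by linarith) (fun i => koksma_lin (a i) δ hδ (ha i) _ _)
    filter_upwards [ae_all_iff.2 h1] with α hα
    obtain ⟨j, hj⟩ := exists_bound α
    refine hα j fun i => ?_
    have := abs_le.1 (hj i)
    constructor <;> linarith
  · intro k ξ hk hξ
    have h1 : ∀ j : ℕ, ∀ᵐ α : ι → ℝ,
        (∀ i, α i ∈ Set.Icc (1 : ℝ) ((j : ℝ) + 2)) →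
        Rarely (fun n i => ⌊ξ i * α i ^ k n⌋) B := by
      intro j
      have hj : (0 : ℝ) ≤ j := Nat.cast_nonneg j
      exact hK ι B hB (fun _ => 1) (fun _ => (j : ℝ) + 2) (fun i n x => ξ i * x ^ k n)
        (fun i => by linarith) (fun i => koksma_pow k (ξ i) hk (hξ i) _)
    filter_upwards [ae_all_iff.2 h1] with α hα hα1
    obtain ⟨j, hj⟩ := exists_bound α
    refine hα j fun i => ?_
    have := abs_le.1 (hj i)
    have := hα1 i
    constructor <;> linarith

end Pool.Agent.N24.KM
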