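import Pool.Agent.N24.KM.Stm

/-! Project KM, part SEP: reciprocals of the distances in a separated sequence. -/

set_option autoImplicit false

namespace Pool.Agent.N24.KM

open Finset

namespace Sep

theorem sum_inv_sq (M : ℕ) :
    ∑ k ∈ range (M + 1), 1 / ((k : ℝ) + 1) ^ 2 ≤ 2 - 1 / ((M : ℝ) + 1) := by
  induction M with
  | zero => norm_num
  | succ M ih =>
    rw [sum_range_succ]
    have h1 : (0 : ℝ) < (M : ℝ) + 1 := by positivity
    have h2 : 1 / (((M + 1 : ℕ) : ℝ) + 1) ^ 2 ≤ 1 / ((M : ℝ) + 1) - 1 / (((M + 1 : ℕ) : ℝ) + 1) := by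
      push_cast
      have h3 : (0 : ℝ) < (M : ℝ) + 1 + 1 := by positivity
      rw [div_sub_div _ _ h1.ne' h3.ne', div_le_div_iff₀ (by positivity) (by positivity)]
      nlinarith
    linarith

theorem sum_inv_sq_set (K : Finset ℕ) (hK : ∀ k ∈ K, 1 ≤ k) :
    ∑ k ∈ K, (1 / (k : ℝ)) ^ 2 ≤ 2 := by
  set M : ℕ := K.sup id with hM
  have hsub : K ⊆ (range (M + 1)).image (fun k : ℕ => k + 1) := by
    intro k hk
    have h1 := hK k hk
    have h2 : k ≤ M := by
      rw [hM]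
      exact le_sup (f := id) hk
    exact mem_image.2 ⟨k - 1, mem_range.2 (by omega), by omega⟩
  calc ∑ k ∈ K, (1 / (k : ℝ)) ^ 2
      ≤ ∑ k ∈ (range (M + 1)).image (fun k : ℕ => k + 1), (1 / (k : ℝ)) ^ 2 :=
        sum_le_sum_of_subset_of_nonneg hsub fun k _ _ => by positivity
    _ = ∑ k ∈ range (M + 1), 1 / ((k : ℝ) + 1) ^ 2 := by
        rw [sum_image (by intro a _ b _ h; simpa using h)]
        refine sum_congr rfl fun k _ => ?_
        push_cast
        rw [div_pow, one_pow]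
    _ ≤ 2 - 1 / ((M : ℝ) + 1) := sum_inv_sq M
    _ ≤ 2 := by
        have : (0 : ℝ) < 1 / ((M : ℝ) + 1) := by positivity
        linarith

theorem one_side (S : Finset ℕ) (z : ℕ → ℝ) (δ : ℝ) (hδ : 0 < δ) (h0 : ∀ n ∈ S, δ ≤ z n)
    (h1 : ∀ m ∈ S, ∀ n ∈ S, m ≠ n → δ ≤ |z m - z n|) :
    ∑ n ∈ S, 1 / z n ≤ 2 / δ * Real.sqrt S.card := by
  set k : ℕ → ℕ := fun n => ⌊z n / δ⌋₊ with hk
  have hk1 : ∀ n ∈ S, 1 ≤ k n := by
    intro n hn
    rw [hk]
    refine Nat.le_floor ?_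
    rw [Nat.cast_one, le_div_iff₀ hδ, one_mul]
    exact h0 n hn
  have hk2 : ∀ n ∈ S, (k n : ℝ) ≤ z n / δ := by
    intro n hn
    exact Nat.floor_le (div_nonneg (hδ.le.trans (h0 n hn)) hδ.le)
  have hk3 : ∀ n, z n / δ < k n + 1 := fun n => Nat.lt_floor_add_one _
  have hinj : Set.InjOn k S := by
    intro a ha b hb hab
    by_contra hne
    have h2 := h1 a ha b hb hne
    have e1 := hk2 a ha
    have e2 := hk2 b hb
    have e3 := hk3 a
    have e4 := hk3 b
    rw [hab] at e1 e3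
    have h3 : |z a / δ - z b / δ| < 1 := by
      rw [abs_lt]
      constructor <;> linarith
    rw [← sub_div, abs_div, abs_of_pos hδ, div_lt_one hδ] at h3
    linarith
  have hle : ∀ n ∈ S, 1 / z n ≤ 1 / δ * (1 / (k n : ℝ)) := by
    intro n hn
    have h2 : (0 : ℝ) < k n := by exact_mod_cast hk1 n hn
    have h3 := hk2 n hn
    rw [le_div_iff₀ hδ] at h3
    rw [div_mul_div_comm, one_mul]
    refine one_div_le_one_div_of_le (by positivity) ?_
    linarith
  have hcs : (∑ n ∈ S, 1 / (k n : ℝ)) ^ 2 ≤ S.card * ∑ n ∈ S, (1 / (k n : ℝ)) ^ 2 :=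
    sq_sum_le_card_mul_sum_sq
  have hsq : ∑ n ∈ S, (1 / (k n : ℝ)) ^ 2 ≤ 2 := by
    have h2 := sum_inv_sq_set (S.image k) (by
      intro j hj
      obtain ⟨n, hn, rfl⟩ := mem_image.1 hj
      exact hk1 n hn)
    rw [sum_image hinj] at h2
    exact h2
  have hsum : ∑ n ∈ S, 1 / (k n : ℝ) ≤ 2 * Real.sqrt S.card := by
    refine le_of_sq_le_sq ?_ (by positivity)
    rw [mul_pow, Real.sq_sqrt (Nat.cast_nonneg _)]
    have h3 : (0 : ℝ) ≤ S.card := Nat.cast_nonneg _
    nlinarith [mul_le_mul_of_nonneg_left hsq h3]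
  calc ∑ n ∈ S, 1 / z n ≤ ∑ n ∈ S, 1 / δ * (1 / (k n : ℝ)) := sum_le_sum hle
    _ = 1 / δ * ∑ n ∈ S, 1 / (k n : ℝ) := by rw [mul_sum]
    _ ≤ 1 / δ * (2 * Real.sqrt S.card) := by gcongr
    _ = 2 / δ * Real.sqrt S.card := by ring

end Sep

theorem t_SEP : S_SEP := by
  intro y δ hδ hy m N
  set T : Finset ℕ := (range N).filter (fun n => n ≠ m) with hT
  have hpos := Sep.one_side (T.filter (fun n => y m < y n)) (fun n => y n - y m) δ hδ (by
    intro n hn
    obtain ⟨hn1, hn2⟩ := mem_filter.1 hn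
    have h1 := hy n m (mem_filter.1 hn1).2
    rwa [abs_of_pos (by linarith)] at h1) (by
    intro a _ b _ hab
    have h1 := hy a b hab
    have e : y a - y m - (y b - y m) = y a - y b := by ring
    rwa [e])
  have hneg := Sep.one_side (T.filter (fun n => ¬ y m < y n)) (fun n => y m - y n) δ hδ (by
    intro n hn
    obtain ⟨hn1, hn2⟩ := mem_filter.1 hn
    have h1 := hy m n (mem_filter.1 hn1).2.symm
    rwa [abs_of_nonneg (by linarith)] at h1) (by
    intro a _ b _ hab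
    have h1 := hy b a hab.symm
    have e : y m - y a - (y m - y b) = y b - y a := by ring
    rwa [e])
  have hT1 : T.card ≤ N := (card_filter_le _ _).trans (by simp)
  have hs1 : Real.sqrt ((T.filter (fun n => y m < y n)).card : ℝ) ≤ Real.sqrt N :=
    Real.sqrt_le_sqrt (by exact_mod_cast (card_filter_le _ _).trans hT1)
  have hs2 : Real.sqrt ((T.filter (fun n => ¬ y m < y n)).card : ℝ) ≤ Real.sqrt N :=
    Real.sqrt_le_sqrt (by exact_mod_cast (card_filter_le _ _).trans hT1)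
  have hd : (0 : ℝ) ≤ 2 / δ := by positivity
  rw [← sum_filter_add_sum_filter_not T (fun n => y m < y n)]
  have e1 : ∑ n ∈ T.filter (fun n => y m < y n), 1 / |y m - y n| =
      ∑ n ∈ T.filter (fun n => y m < y n), 1 / (y n - y m) := by
    refine sum_congr rfl fun n hn => ?_
    have h1 := (mem_filter.1 hn).2
    rw [abs_sub_comm, abs_of_pos (by linarith)]
  have e2 : ∑ n ∈ T.filter (fun n => ¬ y m < y n), 1 / |y m - y n| =
      ∑ n ∈ T.filter (fun n => ¬ y m < y n), 1 / (y m - y n) := by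
    refine sum_congr rfl fun n hn => ?_
    have h1 := (mem_filter.1 hn).2
    rw [abs_of_nonneg (by linarith)]
  rw [e1, e2]
  calc _ ≤ 2 / δ * Real.sqrt N + 2 / δ * Real.sqrt N :=
        add_le_add (hpos.trans (mul_le_mul_of_nonneg_left hs1 hd))
          (hneg.trans (mul_le_mul_of_nonneg_left hs2 hd))
    _ = 4 / δ * Real.sqrt N := by ring

end Pool.Agent.N24.KM
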