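import Pool.Agent.N24.KM.Stm

/-!
# TOR: from exponential sums to residue classes of the integral parts (helper764)

Weyl's criterion in the torus and the portmanteau theorem for a closed box.
-/

set_option autoImplicit false
set_option linter.unusedSectionVars false

namespace Pool.Agent.N24.KM

open MeasureTheory Filter Topology Set UnitAddTorus

noncomputable section

section
variable {ι : Type} [Fintype ι]

/-- the Haar measure of the torus -/
def tmu (ι : Type) [Fintype ι] : Measure (ι → UnitAddCircle) :=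
  Measure.pi fun _ => (volume : Measure UnitAddCircle)

instance tmu_prob : IsProbabilityMeasure (tmu ι) := by
  have h : IsProbabilityMeasure (volume : Measure UnitAddCircle) := by
    refine ⟨?_⟩
    have h1 := AddCircle.measure_univ (T := (1 : ℝ))
    rw [ENNReal.ofReal_one] at h1
    exact h1
  unfold tmu
  infer_instance

theorem int_fourier (n : ℤ) (hn : n ≠ 0) : ∫ t : UnitAddCircle, (fourier n t : ℂ) = 0 :=
  integral_eq_zero_of_add_right_eq_neg (fourier_add_half_inv_index hn (by norm_num))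

theorem int_mFourier (h : ι → ℤ) (hh : h ≠ 0) :
    ∫ θ : ι → UnitAddCircle, (mFourier h θ : ℂ) ∂(tmu ι) = 0 := by
  obtain ⟨i, hi⟩ : ∃ i, h i ≠ 0 := by
    by_contra hc
    push Not at hc
    exact hh (funext hc)
  have h1 : ∀ θ : ι → UnitAddCircle, (mFourier h θ : ℂ) = ∏ i, (fourier (h i) (θ i) : ℂ) :=
    fun θ => rfl
  simp only [h1]
  unfold tmu
  rw [integral_fintype_prod_eq_prod (fun i (t : UnitAddCircle) => (fourier (h i) t : ℂ))]
  exact Finset.prod_eq_zero (Finset.mem_univ i) (int_fourier _ hi)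

/-- the mean along the sequence `y` -/
def mnT (y : ℕ → ι → UnitAddCircle) (N : ℕ) (f : C(ι → UnitAddCircle, ℂ)) : ℂ :=
  (1 / (N : ℂ)) * ∑ n ∈ Finset.range N, f (y n)

theorem mnT_add (y : ℕ → ι → UnitAddCircle) (N : ℕ) (f g : C(ι → UnitAddCircle, ℂ)) :
    mnT y N (f + g) = mnT y N f + mnT y N g := by
  unfold mnT
  rw [← mul_add, ← Finset.sum_add_distrib]
  rfl

theorem mnT_sub (y : ℕ → ι → UnitAddCircle) (N : ℕ) (f g : C(ι → UnitAddCircle, ℂ)) :
    mnT y N (f - g) = mnT y N f - mnT y N g := by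
  unfold mnT
  rw [← mul_sub, ← Finset.sum_sub_distrib]
  rfl

theorem mnT_smul (y : ℕ → ι → UnitAddCircle) (N : ℕ) (c : ℂ) (f : C(ι → UnitAddCircle, ℂ)) :
    mnT y N (c • f) = c * mnT y N f := by
  unfold mnT
  have : ∀ n, (c • f) (y n) = c * f (y n) := fun n => rfl
  simp only [this, ← Finset.mul_sum]
  ring

theorem mnT_le (y : ℕ → ι → UnitAddCircle) (N : ℕ) (f : C(ι → UnitAddCircle, ℂ)) :
    ‖mnT y N f‖ ≤ ‖f‖ := by
  unfold mnT
  rcases Nat.eq_zero_or_pos N with h | h
  · subst h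
    simp
  · have hN : (0 : ℝ) < N := by exact_mod_cast h
    have h1 : ‖∑ n ∈ Finset.range N, f (y n)‖ ≤ N * ‖f‖ := by
      refine (norm_sum_le_of_le _ fun n _ => f.norm_coe_le_norm (y n)).trans ?_
      rw [Finset.sum_const, Finset.card_range, nsmul_eq_mul]
    rw [norm_mul, norm_div, norm_one, Complex.norm_natCast]
    calc 1 / (N : ℝ) * ‖∑ n ∈ Finset.range N, f (y n)‖ ≤ 1 / (N : ℝ) * (N * ‖f‖) := by gcongr
      _ = ‖f‖ := by field_simp

theorem cont_int (f : C(ι → UnitAddCircle, ℂ)) : Integrable (fun θ => f θ) (tmu ι) :=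
  f.continuous.integrable_of_hasCompactSupport (HasCompactSupport.of_compactSpace _)

theorem cont_lim (y : ℕ → ι → UnitAddCircle)
    (h0 : ∀ h : ι → ℤ, h ≠ 0 → Tendsto (fun N : ℕ => mnT y N (mFourier h)) atTop (𝓝 0))
    (f : C(ι → UnitAddCircle, ℂ)) :
    Tendsto (fun N : ℕ => mnT y N f) atTop (𝓝 (∫ θ, f θ ∂(tmu ι))) := by
  -- trigonometric polynomials
  have h1 : ∀ p ∈ Submodule.span ℂ (Set.range (mFourier (d := ι))),
      Tendsto (fun N : ℕ => mnT y N p) atTop (𝓝 (∫ θ, p θ ∂(tmu ι))) := by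
    intro p hp
    induction hp using Submodule.span_induction with
    | mem p hp =>
      obtain ⟨h, rfl⟩ := hp
      by_cases hh : h = 0
      · subst hh
        have e1 : ∫ θ, (mFourier (0 : ι → ℤ) θ : ℂ) ∂(tmu ι) = 1 := by
          simp [mFourier_zero]
        rw [e1]
        refine Tendsto.congr' ?_ tendsto_const_nhds
        filter_upwards [eventually_gt_atTop 0] with N hN
        have hN' : (N : ℂ) ≠ 0 := by exact_mod_cast hN.ne'
        unfold mnT
        simp [mFourier_zero, hN']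
      · rw [int_mFourier h hh]
        exact h0 h hh
    | zero =>
      have e1 : ∀ N, mnT y N (0 : C(ι → UnitAddCircle, ℂ)) = 0 := by
        intro N
        unfold mnT
        simp
      simp only [e1]
      simp
    | add p p' _ _ hp hp' =>
      have e1 : ∫ θ, (p + p') θ ∂(tmu ι) = ∫ θ, p θ ∂(tmu ι) + ∫ θ, p' θ ∂(tmu ι) :=
        integral_add (cont_int p) (cont_int p')
      rw [e1]
      simp only [mnT_add]
      exact hp.add hp'
    | smul c p _ hp =>
      have e1 : ∫ θ, (c • p) θ ∂(tmu ι) = c * ∫ θ, p θ ∂(tmu ι) :=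
        integral_const_mul c _
      rw [e1]
      simp only [mnT_smul]
      exact hp.const_mul c
  rw [Metric.tendsto_atTop]
  intro ε hε
  have hcl : f ∈ closure ((Submodule.span ℂ (Set.range (mFourier (d := ι))) :
      Submodule ℂ C(ι → UnitAddCircle, ℂ)) : Set C(ι → UnitAddCircle, ℂ)) := by
    have h2 := span_mFourier_closure_eq_top (d := ι)
    have h3 : f ∈ (Submodule.span ℂ (Set.range (mFourier (d := ι)))).topologicalClosure := by
      rw [h2]
      trivial
    exact h3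
  obtain ⟨p, hp, hfp⟩ := Metric.mem_closure_iff.1 hcl (ε / 3) (by positivity)
  rw [dist_eq_norm] at hfp
  obtain ⟨N₀, hN₀⟩ := (Metric.tendsto_atTop.1 (h1 p hp)) (ε / 3) (by positivity)
  refine ⟨N₀, fun N hN => ?_⟩
  have h4 := hN₀ N hN
  rw [dist_eq_norm] at h4 ⊢
  have h5 : ‖mnT y N f - mnT y N p‖ < ε / 3 := by
    rw [← mnT_sub]
    exact (mnT_le y N _).trans_lt hfp
  have h6 : ‖∫ θ, p θ ∂(tmu ι) - ∫ θ, f θ ∂(tmu ι)‖ ≤ ‖f - p‖ := by
    rw [← integral_sub (cont_int p) (cont_int f)]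
    refine (norm_integral_le_of_norm_le_const (C := ‖f - p‖) ?_).trans ?_
    · refine Filter.Eventually.of_forall fun θ => ?_
      rw [norm_sub_rev]
      exact (f - p).norm_coe_le_norm θ
    · simp
  have e1 : mnT y N f - ∫ θ, f θ ∂(tmu ι) = (mnT y N f - mnT y N p) +
      (mnT y N p - ∫ θ, p θ ∂(tmu ι)) + (∫ θ, p θ ∂(tmu ι) - ∫ θ, f θ ∂(tmu ι)) := by ring
  rw [e1]
  refine (norm_add₃_le).trans_lt ?_
  linarith

/-- the law of the first `N` members -/
def lawT' (N : ℕ) (y : ℕ → ι → UnitAddCircle) : Measure (ι → UnitAddCircle) :=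
  ((N : ENNReal))⁻¹ • ∑ n ∈ Finset.range N, Measure.dirac (y n)

theorem lawT'_apply (N : ℕ) (y : ℕ → ι → UnitAddCircle) (T : Set (ι → UnitAddCircle))
    (hT : MeasurableSet T) : lawT' N y T = ((N : ENNReal))⁻¹ * (open Classical in
      ((Finset.range N).filter (fun n => y n ∈ T)).card : ENNReal) := by
  classical
  unfold lawT'
  rw [Measure.smul_apply, Measure.finsetSum_apply, smul_eq_mul]
  congr 1
  have h1 : ∀ n ∈ Finset.range N, (Measure.dirac (y n)) T = if y n ∈ T then (1 : ENNReal) else 0 := by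
    intro n _
    rw [Measure.dirac_apply' _ hT, Set.indicator_apply]
    rfl
  rw [Finset.sum_congr rfl h1, Finset.sum_ite, Finset.sum_const_zero, add_zero, Finset.sum_const,
    nsmul_eq_mul, mul_one]

theorem lawT'_prob (N : ℕ) (hN : N ≠ 0) (y : ℕ → ι → UnitAddCircle) :
    IsProbabilityMeasure (lawT' N y) := by
  refine ⟨?_⟩
  rw [lawT'_apply N y _ MeasurableSet.univ]
  simp only [Set.mem_univ, Finset.filter_true, Finset.card_range]
  exact ENNReal.inv_mul_cancel (by exact_mod_cast hN) (ENNReal.natCast_ne_top _)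

theorem integral_lawT' (N : ℕ) (y : ℕ → ι → UnitAddCircle) (F : (ι → UnitAddCircle) → ℝ)
    (hF : StronglyMeasurable F) :
    ∫ θ, F θ ∂(lawT' N y) = (∑ n ∈ Finset.range N, F (y n)) / N := by
  unfold lawT'
  rw [integral_smul_measure, integral_finsetSum_measure fun n _ => integrable_dirac' hF (by simp)]
  have h1 : ∀ n ∈ Finset.range N, ∫ θ, F θ ∂(Measure.dirac (y n)) = F (y n) := by
    intro n _
    exact integral_dirac' F (y n) hF
  rw [Finset.sum_congr rfl h1, smul_eq_mul]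
  have h2 : ((N : ENNReal))⁻¹.toReal = ((N : ℝ))⁻¹ := by
    rw [ENNReal.toReal_inv, ENNReal.toReal_natCast]
  rw [h2]
  ring

theorem closed_le (y : ℕ → ι → UnitAddCircle)
    (h0 : ∀ h : ι → ℤ, h ≠ 0 → Tendsto (fun N : ℕ => mnT y N (mFourier h)) atTop (𝓝 0))
    (F : Set (ι → UnitAddCircle)) (hF : IsClosed F) (b : ENNReal) (hb : tmu ι F < b) :
    ∀ᶠ N : ℕ in atTop, lawT' (N + 1) y F < b := by
  let P : ℕ → ProbabilityMeasure (ι → UnitAddCircle) := fun N =>
    ⟨lawT' (N + 1) y, lawT'_prob (N + 1) (Nat.succ_ne_zero N) y⟩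
  let Q : ProbabilityMeasure (ι → UnitAddCircle) := ⟨tmu ι, tmu_prob⟩
  have hlim : Tendsto P atTop (𝓝 Q) := by
    rw [ProbabilityMeasure.tendsto_iff_forall_integral_tendsto]
    intro f
    let g : C(ι → UnitAddCircle, ℂ) := ⟨fun θ => ((f θ : ℝ) : ℂ), by fun_prop⟩
    have h1 := cont_lim y h0 g
    have h2 := h1.comp (tendsto_add_atTop_nat 1)
    have h3 := (Complex.continuous_re.tendsto _).comp h2
    have e1 : (∫ θ, g θ ∂(tmu ι)).re = ∫ θ, f θ ∂(tmu ι) := by
      have : ∫ θ, g θ ∂(tmu ι) = ((∫ θ, f θ ∂(tmu ι) : ℝ) : ℂ) := integral_ofReal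
      rw [this, Complex.ofReal_re]
    rw [e1] at h3
    refine h3.congr fun N => ?_
    change (mnT y (N + 1) g).re = ∫ θ, f θ ∂(lawT' (N + 1) y)
    rw [integral_lawT' (N + 1) y _ f.continuous.stronglyMeasurable]
    have e2 : mnT y (N + 1) g =
        (((∑ n ∈ Finset.range (N + 1), f (y n)) / ((N + 1 : ℕ) : ℝ) : ℝ) : ℂ) := by
      unfold mnT
      have : ∀ n, g (y n) = ((f (y n) : ℝ) : ℂ) := fun n => rfl
      simp only [this]
      push_cast
      ring
    rw [e2, Complex.ofReal_re]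
  have h4 := ProbabilityMeasure.limsup_measure_closed_le_of_tendsto hlim hF
  exact eventually_lt_of_limsup_lt (lt_of_le_of_lt h4 hb)

end

theorem t_TOR : S_TOR := by
  classical
  intro ι _ q hq x hx c ε hε
  have hq0 : (0 : ℝ) < q := by exact_mod_cast hq
  have hq1 : (1 : ℝ) ≤ q := by exact_mod_cast hq
  let y : ℕ → ι → UnitAddCircle := fun n i => ((x n i / q : ℝ) : UnitAddCircle)
  have h0 : ∀ h : ι → ℤ, h ≠ 0 → Tendsto (fun N : ℕ => mnT y N (mFourier h)) atTop (𝓝 0) := by
    intro h hh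
    refine (hx h hh).congr fun N => ?_
    unfold mnT
    congr 1
    refine Finset.sum_congr rfl fun n _ => ?_
    change e _ = ∏ i, fourier (h i) (y n i)
    simp only [y, fourier_coe_apply]
    rw [← Complex.exp_sum]
    unfold e
    congr 1
    push_cast
    rw [Finset.mul_sum, Finset.sum_mul]
    refine Finset.sum_congr rfl fun i _ => ?_
    ring
  let ctr : ι → UnitAddCircle := fun i => (((((c i).val : ℝ) + 1 / 2) / q : ℝ) : UnitAddCircle)
  set F : Set (ι → UnitAddCircle) := Set.pi univ fun i => Metric.closedBall (ctr i) (1 / (2 * q))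
    with hF
  have hFc : IsClosed F := isClosed_set_pi fun i _ => Metric.isClosed_closedBall
  have hFm : tmu ι F = ENNReal.ofReal (((q : ℝ) ^ Fintype.card ι)⁻¹) := by
    unfold tmu
    rw [hF, Measure.pi_pi]
    have h1 : ∀ i : ι, (volume : Measure UnitAddCircle) (Metric.closedBall (ctr i) (1 / (2 * q))) =
        ENNReal.ofReal ((q : ℝ)⁻¹) := by
      intro i
      rw [AddCircle.volume_closedBall]
      congr 1
      have : (2 : ℝ) * (1 / (2 * q)) = (q : ℝ)⁻¹ := by field_simp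
      rw [this, min_eq_right (inv_le_one_of_one_le₀ hq1)]
    simp only [h1]
    rw [Finset.prod_const, Finset.card_univ, ← ENNReal.ofReal_pow (by positivity), inv_pow]
  have hlt : tmu ι F < ENNReal.ofReal (((q : ℝ) ^ Fintype.card ι)⁻¹ + ε) := by
    rw [hFm]
    exact (ENNReal.ofReal_lt_ofReal_iff (by positivity)).2 (by linarith)
  have hev := closed_le y h0 F hFc _ hlt
  have key : ∀ᶠ N : ℕ in atTop, lawT' N y F < ENNReal.ofReal (((q : ℝ) ^ Fintype.card ι)⁻¹ + ε) := by
    obtain ⟨N₀, hN₀⟩ := eventually_atTop.1 hev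
    refine eventually_atTop.2 ⟨N₀ + 1, fun N hN => ?_⟩
    have := hN₀ (N - 1) (by omega)
    rwa [show N - 1 + 1 = N by omega] at this
  filter_upwards [key, eventually_gt_atTop 0] with N hN hN0
  have hNr : (0 : ℝ) < N := by exact_mod_cast hN0
  rw [lawT'_apply N y F hFc.measurableSet] at hN
  -- the count
  have hsub : {n : ℕ | n < N ∧ ∀ i, ((⌊x n i⌋ : ℤ) : ZMod q) = c i} ⊆
      (((Finset.range N).filter (fun n => y n ∈ F) : Finset ℕ) : Set ℕ) := by
    rintro n ⟨hn, hc⟩
    rw [Finset.mem_coe, Finset.mem_filter, Finset.mem_range]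
    refine ⟨hn, ?_⟩
    rw [hF, Set.mem_univ_pi]
    intro i
    rw [Metric.mem_closedBall, dist_eq_norm]
    have h1 : (((x n i / q : ℝ) : UnitAddCircle)) - ((((((c i).val : ℝ) + 1 / 2) / q : ℝ) : UnitAddCircle)) =
        (((x n i / q - ((((c i).val : ℝ) + 1 / 2) / q) : ℝ)) : UnitAddCircle) := by
      rw [AddCircle.coe_sub]
    change ‖(((x n i / q : ℝ) : UnitAddCircle)) -
      ((((((c i).val : ℝ) + 1 / 2) / q : ℝ) : UnitAddCircle))‖ ≤ _
    rw [h1, UnitAddCircle.norm_eq]
    haveI : NeZero q := ⟨hq.ne'⟩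
    -- the quotient
    obtain ⟨k, hk⟩ : ∃ k : ℤ, ⌊x n i⌋ = ((c i).val : ℤ) + q * k := by
      have h2 : ((⌊x n i⌋ : ℤ) : ZMod q) = (((c i).val : ℤ) : ZMod q) := by
        rw [hc i]
        simp
      have h3 := (ZMod.intCast_eq_intCast_iff_dvd_sub _ _ q).1 h2.symm
      obtain ⟨k, hk⟩ := h3
      exact ⟨k, by linarith⟩
    refine (round_le _ k).trans ?_
    have h4 : x n i / q - (((c i).val : ℝ) + 1 / 2) / q - (k : ℝ) = (x n i - ⌊x n i⌋ - 1 / 2) / q := by
      rw [hk]
      push_cast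
      field_simp
      ring
    rw [h4, abs_div, abs_of_pos hq0]
    have h5 : |x n i - ⌊x n i⌋ - 1 / 2| ≤ 1 / 2 := by
      have h6 := Int.floor_le (x n i)
      have h7 := (Int.lt_floor_add_one (x n i)).le
      rw [abs_le]
      constructor <;> linarith
    calc |x n i - ⌊x n i⌋ - 1 / 2| / q ≤ 1 / 2 / q := by gcongr
      _ = 1 / (2 * q) := by field_simp
  have hcard : {n : ℕ | n < N ∧ ∀ i, ((⌊x n i⌋ : ℤ) : ZMod q) = c i}.ncard ≤
      ((Finset.range N).filter (fun n => y n ∈ F)).card := by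
    rw [← Set.ncard_coe_finset]
    exact Set.ncard_le_ncard hsub (Finset.finite_toSet _)
  have hB : 0 ≤ ((q : ℝ) ^ Fintype.card ι)⁻¹ + ε := by positivity
  have h8 : ((((Finset.range N).filter (fun n => y n ∈ F)).card : ℕ) : ℝ) ≤
      (((q : ℝ) ^ Fintype.card ι)⁻¹ + ε) * N := by
    have h9 := (ENNReal.toReal_mono (by simp) hN.le)
    rw [ENNReal.toReal_mul, ENNReal.toReal_inv, ENNReal.toReal_natCast, ENNReal.toReal_ofReal hB] at h9
    have h10 : (((Finset.range N).filter (fun n => y n ∈ F)).card : ENNReal).toReal =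
        ((((Finset.range N).filter (fun n => y n ∈ F)).card : ℕ) : ℝ) := ENNReal.toReal_natCast _
    rw [inv_mul_le_iff₀ hNr] at h9
    calc _ = (((Finset.range N).filter (fun n => y n ∈ F)).card : ENNReal).toReal := h10.symm
      _ ≤ _ := by rw [mul_comm]; convert h9
  calc ((({n : ℕ | n < N ∧ ∀ i, ((⌊x n i⌋ : ℤ) : ZMod q) = c i}.ncard : ℕ)) : ℝ) ≤
      ((((Finset.range N).filter (fun n => y n ∈ F)).card : ℕ) : ℝ) := by exact_mod_cast hcard
    _ ≤ _ := h8

end

end Pool.Agent.N24.KM
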