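import Pool.Agent.N24.KM.Stm

/-!
# Metric sequences of integral vectors: Koksma's theorem in several variables

Written by helper432 for project KM of helper24.
-/

set_option autoImplicit false

namespace Pool.Agent.N24.KM

open MeasureTheory Filter Topology Pool.Agent.N24.RW

namespace Wey

theorem e_add (x y : ℝ) : e (x + y) = e x * e y := by
  unfold e
  rw [← Complex.exp_add]
  congr 1
  push_cast
  ring

theorem e_zero : e 0 = 1 := by
  unfold e
  simp

theorem norm_e (x : ℝ) : ‖e x‖ = 1 := by
  unfold e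
  have : (2 * (Real.pi : ℂ) * (x : ℂ) * Complex.I) = ((2 * Real.pi * x : ℝ) : ℂ) * Complex.I := by
    push_cast
    ring
  rw [this, Complex.norm_exp_ofReal_mul_I]

theorem conj_e (x : ℝ) : (starRingEnd ℂ) (e x) = e (-x) := by
  unfold e
  rw [← Complex.exp_conj]
  congr 1
  have h2 : (2 * (Real.pi : ℂ) * (x : ℂ) * Complex.I) = ((2 * Real.pi * x : ℝ) : ℂ) * Complex.I := by
    push_cast
    ring
  rw [h2, map_mul, Complex.conj_ofReal, Complex.conj_I]
  push_cast
  ring

theorem e_sum {ι : Type} (s : Finset ι) (g : ι → ℝ) : e (∑ i ∈ s, g i) = ∏ i ∈ s, e (g i) := by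
  classical
  induction s using Finset.induction_on with
  | empty => simp [e_zero]
  | insert a s ha ih => rw [Finset.sum_insert ha, Finset.prod_insert ha, e_add, ih]

theorem continuous_e : Continuous e := by
  unfold e
  fun_prop

/-- the factor `i0` -/
theorem one_factor (hI : S_INT) (a b : ℝ) (f : ℕ → ℝ → ℝ) (hab : a < b)
    (hf : ∀ n, ContDiff ℝ 2 (f n)) (δ : ℝ) (hδ : 0 < δ) (m n : ℕ)
    (h1 : ∀ x ∈ Set.Icc a b, δ ≤ |deriv (f m) x - deriv (f n) x|)
    (h2 : (∀ x ∈ Set.Icc a b, deriv (deriv (f n)) x ≤ deriv (deriv (f m)) x) ∨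
      ∀ x ∈ Set.Icc a b, deriv (deriv (f m)) x ≤ deriv (deriv (f n)) x)
    (t : ℝ) (ht : t ≠ 0) :
    ‖∫ x in Set.Icc a b, e (t * (f m x - f n x))‖ ≤
      1 / |t| * (1 / |deriv (f m) a - deriv (f n) a| + 1 / |deriv (f m) b - deriv (f n) b|) := by
  have hd : ∀ n x, DifferentiableAt ℝ (f n) x := fun n x =>
    ((hf n).differentiable (by norm_num)).differentiableAt
  have hdd : ∀ n x, DifferentiableAt ℝ (deriv (f n)) x := fun n x => by
    have h : ContDiff ℝ 1 (deriv (f n)) := by
      have := (contDiff_succ_iff_deriv (n := 1) (f := f n)).1 (by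
        have := hf n
        norm_num
        exact this)
      exact this.2.2
    exact (h.differentiable (by norm_num)).differentiableAt
  have hg1 : deriv (fun x => t * (f m x - f n x)) = fun x => t * (deriv (f m) x - deriv (f n) x) := by
    funext x
    exact (((hd m x).hasDerivAt.sub (hd n x).hasDerivAt).const_mul t).deriv
  have hg2 : ∀ x, deriv (deriv (fun x => t * (f m x - f n x))) x =
      t * (deriv (deriv (f m)) x - deriv (deriv (f n)) x) := by
    intro x
    rw [hg1]
    exact (((hdd m x).hasDerivAt.sub (hdd n x).hasDerivAt).const_mul t).deriv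
  have key := hI a b (fun x => t * (f m x - f n x)) hab
    (contDiff_const.mul ((hf m).sub (hf n))) (by
      intro x hx
      rw [hg1]
      have := h1 x hx
      have h3 : deriv (f m) x - deriv (f n) x ≠ 0 := by
        intro h
        rw [h, abs_zero] at this
        linarith
      exact mul_ne_zero ht h3) (by
      rcases lt_or_gt_of_ne ht with ht' | ht'
      · rcases h2 with h2 | h2
        · right
          intro x hx
          rw [hg2]
          have := h2 x hx
          nlinarith
        · left
          intro x hx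
          rw [hg2]
          have := h2 x hx
          nlinarith
      · rcases h2 with h2 | h2
        · left
          intro x hx
          rw [hg2]
          have := h2 x hx
          exact mul_nonneg ht'.le (by linarith)
        · right
          intro x hx
          rw [hg2]
          have := h2 x hx
          nlinarith)
  rw [intervalIntegral.integral_of_le hab.le, ← integral_Icc_eq_integral_Ioc] at key
  rw [hg1] at key
  refine key.trans (le_of_eq ?_)
  simp only [abs_mul, one_div, mul_inv]
  ring

end Wey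

open Wey in
theorem t_WEY (hI : S_INT) (hS : S_SEP) (hA : S_AE) : S_WEY := by
  intro ι _ a b f hab hK t ht
  classical
  obtain ⟨i0, hi0⟩ : ∃ i, t i ≠ 0 := by
    by_contra h
    push Not at h
    exact ht (funext h)
  set K : Set (ι → ℝ) := Set.pi Set.univ (fun i => Set.Icc (a i) (b i)) with hKdef
  set μ : Measure (ι → ℝ) := volume.restrict K with hμ
  have hcomp : IsCompact K := isCompact_univ_pi fun i => isCompact_Icc
  have hfin : IsFiniteMeasure μ := isFiniteMeasure_restrict.2 hcomp.measure_lt_top.ne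
  have hμpi : μ = Measure.pi (fun i => (volume : Measure ℝ).restrict (Set.Icc (a i) (b i))) := by
    rw [hμ, hKdef, volume_pi, Measure.restrict_pi_pi]
  set u : ℕ → (ι → ℝ) → ℂ := fun n α => e (∑ i, t i * f i n (α i)) with hu
  have hfc : ∀ i n, Continuous (f i n) := fun i n => ((hK i).1 n).continuous
  have huc : ∀ n, Continuous (u n) := by
    intro n
    refine continuous_e.comp ?_
    refine continuous_finsetSum _ fun i _ => ?_
    exact continuous_const.mul ((hfc i n).comp (continuous_apply i))
  have hun : ∀ n x, ‖u n x‖ = 1 := fun n x => norm_e _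
  obtain ⟨hf2, δ, hδ, hsep⟩ := hK i0
  -- the pair integrals
  set G : ℕ → ℕ → ℂ := fun m n => ∫ x, u m x * (starRingEnd ℂ) (u n x) ∂μ with hG
  set P : ℝ := ∏ i ∈ Finset.univ.erase i0, (b i - a i) with hP
  have hP0 : 0 ≤ P := Finset.prod_nonneg fun i _ => by linarith [hab i]
  set V : ℝ := (μ Set.univ).toReal with hV
  have hV0 : 0 ≤ V := ENNReal.toReal_nonneg
  have hGdiag : ∀ m, ‖G m m‖ ≤ V := by
    intro m
    have := norm_integral_le_of_norm_le_const (μ := μ) (f := fun x => u m x * (starRingEnd ℂ) (u m x))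
      (C := 1) (Filter.Eventually.of_forall fun x => by
        rw [norm_mul, RCLike.norm_conj, hun, one_mul])
    rw [one_mul] at this
    exact this
  have hGoff : ∀ m n, m ≠ n → ‖G m n‖ ≤ P * (1 / |t i0| *
      (1 / |deriv (f i0 m) (a i0) - deriv (f i0 n) (a i0)| +
        1 / |deriv (f i0 m) (b i0) - deriv (f i0 n) (b i0)|)) := by
    intro m n hmn
    have h1 : ∀ x, u m x * (starRingEnd ℂ) (u n x) =
        ∏ i, (fun i (y : ℝ) => e (t i * (f i m y - f i n y))) i (x i) := by
      intro x
      rw [hu]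
      simp only
      rw [conj_e, ← e_add, ← e_sum]
      congr 1
      rw [← Finset.sum_neg_distrib, ← Finset.sum_add_distrib]
      refine Finset.sum_congr rfl fun i _ => ?_
      ring
    have h2 : G m n = ∏ i, ∫ y in Set.Icc (a i) (b i), e (t i * (f i m y - f i n y)) := by
      rw [hG]
      simp only [h1]
      rw [hμpi]
      exact integral_fintype_prod_eq_prod (μ := fun i => (volume : Measure ℝ).restrict (Set.Icc (a i) (b i)))
        (fun i (y : ℝ) => e (t i * (f i m y - f i n y)))
    rw [h2, norm_prod, ← Finset.mul_prod_erase Finset.univ _ (Finset.mem_univ i0), mul_comm]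
    refine mul_le_mul ?_ ?_ (norm_nonneg _) hP0
    · refine Finset.prod_le_prod (fun i _ => norm_nonneg _) fun i _ => ?_
      have := norm_setIntegral_le_of_norm_le_const (μ := (volume : Measure ℝ))
        (s := Set.Icc (a i) (b i)) (f := fun y => e (t i * (f i m y - f i n y))) (C := 1)
        (by simp) (fun y _ => by rw [norm_e])
      refine this.trans (le_of_eq ?_)
      rw [one_mul, Measure.real, Real.volume_Icc, ENNReal.toReal_ofReal (by linarith [hab i])]
    · exact one_factor hI (a i0) (b i0) (f i0) (hab i0) hf2 δ hδ m n (hsep m n hmn).1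
        (hsep m n hmn).2 (t i0) hi0
  have habs : 0 < |t i0| := abs_pos.2 hi0
  have hrow : ∀ N : ℕ, ∀ m ∈ Finset.range N, ∑ n ∈ Finset.range N, ‖G m n‖ ≤
      V + P * (1 / |t i0| * (4 / δ * Real.sqrt N + 4 / δ * Real.sqrt N)) := by
    intro N m hm
    rw [← Finset.sum_filter_add_sum_filter_not (Finset.range N) (fun n => n ≠ m)]
    have h1 : ∑ n ∈ (Finset.range N).filter (fun n => n ≠ m), ‖G m n‖ ≤
        P * (1 / |t i0| * (4 / δ * Real.sqrt N + 4 / δ * Real.sqrt N)) := by
      have hs1 := hS (fun n => deriv (f i0 n) (a i0)) δ hδ (fun m n hmn =>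
        (hsep m n hmn).1 (a i0) ⟨le_refl _, (hab i0).le⟩) m N
      have hs2 := hS (fun n => deriv (f i0 n) (b i0)) δ hδ (fun m n hmn =>
        (hsep m n hmn).1 (b i0) ⟨(hab i0).le, le_refl _⟩) m N
      calc ∑ n ∈ (Finset.range N).filter (fun n => n ≠ m), ‖G m n‖ 
          ≤ ∑ n ∈ (Finset.range N).filter (fun n => n ≠ m), P * (1 / |t i0| *
      (1 / |deriv (f i0 m) (a i0) - deriv (f i0 n) (a i0)| +
        1 / |deriv (f i0 m) (b i0) - deriv (f i0 n) (b i0)|)) := by
            refine Finset.sum_le_sum fun n hn => hGoff m n ?_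
            exact (Ne.symm (Finset.mem_filter.1 hn).2)
        _ = P * (1 / |t i0| * 
      (∑ n ∈ (Finset.range N).filter (fun n => n ≠ m), 1 / |deriv (f i0 m) (a i0) - deriv (f i0 n) (a i0)| +
        ∑ n ∈ (Finset.range N).filter (fun n => n ≠ m), 1 / |deriv (f i0 m) (b i0) - deriv (f i0 n) (b i0)|)) := by
            rw [← Finset.sum_add_distrib, Finset.mul_sum, Finset.mul_sum]
        _ ≤ _ := by
            refine mul_le_mul_of_nonneg_left (mul_le_mul_of_nonneg_left (add_le_add hs1 hs2) ?_) hP0
            positivity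
    have h2 : ∑ n ∈ (Finset.range N).filter (fun n => ¬ n ≠ m), ‖G m n‖ ≤ V := by
      have : (Finset.range N).filter (fun n => ¬ n ≠ m) = {m} := by
        ext n
        simp only [not_not, Finset.mem_filter, Finset.mem_singleton]
        constructor
        · rintro ⟨_, h⟩
          exact h
        · rintro rfl
          exact ⟨hm, rfl⟩
      rw [this, Finset.sum_singleton]
      exact hGdiag m
    linarith
  have hmom : ∀ N : ℕ, ∫ x, ‖∑ n ∈ Finset.range N, u n x‖ ^ 2 ∂μ ≤
      (V + P * (1 / |t i0| * (8 / δ))) * (N : ℝ) * Real.sqrt N := by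
    intro N
    have hint : ∀ m n, Integrable (fun x => u m x * (starRingEnd ℂ) (u n x)) μ := by
      intro m n
      refine Integrable.of_bound (C := 1) ?_ ?_
      · exact ((huc m).mul (Complex.continuous_conj.comp (huc n))).aestronglyMeasurable
      · exact Filter.Eventually.of_forall fun x => by
          rw [norm_mul, RCLike.norm_conj, hun, hun, one_mul]
    have h1 : ((∫ x, ‖∑ n ∈ Finset.range N, u n x‖ ^ 2 ∂μ : ℝ) : ℂ) =
        ∑ m ∈ Finset.range N, ∑ n ∈ Finset.range N, G m n := by
      rw [← integral_complex_ofReal]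
      have h2 : ∀ x, (((‖∑ n ∈ Finset.range N, u n x‖ ^ 2 : ℝ)) : ℂ) =
          ∑ m ∈ Finset.range N, ∑ n ∈ Finset.range N, u m x * (starRingEnd ℂ) (u n x) := by
        intro x
        rw [← Complex.normSq_eq_norm_sq, ← Complex.mul_conj, map_sum, Finset.sum_mul_sum]
      simp only [h2]
      rw [integral_finsetSum _ fun m _ => integrable_finsetSum _ fun n _ => hint m n]
      refine Finset.sum_congr rfl fun m _ => ?_
      rw [integral_finsetSum _ fun n _ => hint m n]
    have h3 : ∫ x, ‖∑ n ∈ Finset.range N, u n x‖ ^ 2 ∂μ ≤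
        ∑ m ∈ Finset.range N, ∑ n ∈ Finset.range N, ‖G m n‖ := by
      have h0 : 0 ≤ ∫ x, ‖∑ n ∈ Finset.range N, u n x‖ ^ 2 ∂μ := integral_nonneg fun x => by positivity
      have h4 : ∫ x, ‖∑ n ∈ Finset.range N, u n x‖ ^ 2 ∂μ =
          ‖((∫ x, ‖∑ n ∈ Finset.range N, u n x‖ ^ 2 ∂μ : ℝ) : ℂ)‖ := by
        rw [Complex.norm_real, Real.norm_of_nonneg h0]
      rw [h4, h1]
      exact (norm_sum_le _ _).trans (Finset.sum_le_sum fun m _ => norm_sum_le _ _)
    have h5 : ∑ m ∈ Finset.range N, ∑ n ∈ Finset.range N, ‖G m n‖ ≤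
        (N : ℝ) * (V + P * (1 / |t i0| * (4 / δ * Real.sqrt N + 4 / δ * Real.sqrt N))) := by
      calc ∑ m ∈ Finset.range N, ∑ n ∈ Finset.range N, ‖G m n‖ ≤
          ∑ m ∈ Finset.range N, (V + P * (1 / |t i0| * (4 / δ * Real.sqrt N + 4 / δ * Real.sqrt N))) :=
            Finset.sum_le_sum fun m hm => hrow N m hm
        _ = _ := by rw [Finset.sum_const, Finset.card_range, nsmul_eq_mul]
    refine h3.trans (h5.trans ?_)
    rcases Nat.eq_zero_or_pos N with rfl | hN
    · simp
    · have hs : (1 : ℝ) ≤ Real.sqrt N := by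
        rw [Real.one_le_sqrt]
        exact_mod_cast hN
      have hN0 : (0 : ℝ) ≤ (N : ℝ) := Nat.cast_nonneg N
      have h6 : V ≤ V * Real.sqrt N := by nlinarith
      have h7 : V + P * (1 / |t i0| * (4 / δ * Real.sqrt N + 4 / δ * Real.sqrt N)) ≤
          (V + P * (1 / |t i0| * (8 / δ))) * Real.sqrt N := by
        have h8 : P * (1 / |t i0| * (4 / δ * Real.sqrt N + 4 / δ * Real.sqrt N)) =
          P * (1 / |t i0| * (8 / δ)) * Real.sqrt N := by ring
        rw [h8, add_mul]
        linarith
      calc (N : ℝ) * (V + P * (1 / |t i0| * (4 / δ * Real.sqrt N + 4 / δ * Real.sqrt N)))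
          ≤ (N : ℝ) * ((V + P * (1 / |t i0| * (8 / δ))) * Real.sqrt N) :=
            mul_le_mul_of_nonneg_left h7 hN0
        _ = _ := by ring
  have hfinal := hA (ι → ℝ) μ u (V + P * (1 / |t i0| * (8 / δ)))
    (fun n => (huc n).measurable) (fun n x => (hun n x).le) hmom
  rw [hμ, ae_restrict_iff' hcomp.isClosed.measurableSet] at hfinal
  filter_upwards [hfinal] with α hα hbox
  exact hα (fun i _ => hbox i)

end Pool.Agent.N24.KM
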