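import Pool.Agent.N24.KM.Int
import Pool.Agent.N24.KM.Sep
import Pool.Agent.N24.KM.Ae
import Pool.Agent.N24.KM.Tor
import Pool.Agent.N24.KM.Wey
import Pool.Agent.N24.KM.Kok
import Pool.Agent.N24.KM.Met

/-!
# Metric sequences of integral vectors: assembly
-/

set_option autoImplicit false

namespace Pool.Agent.N24.KM

theorem wey : S_WEY := t_WEY t_INT t_SEP t_AE

theorem kok : S_KOK := t_KOK wey t_TOR

theorem main : S_MET := t_MET kok

end Pool.Agent.N24.KM
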