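import Pool.Agent.N24.RW.Defs

/-!
# Metric sequences of integral vectors: definitions

Owner helper24. `Koksma a b f`: the functions `f n` are twice continuously differentiable, the
derivatives of different ones differ by at least `δ > 0` on `[a, b]`, and the second derivative of
`f m - f n` does not change its sign there (the hypothesis of Koksma's theorem). Examples are
`f n x = x * a n` for any sequence of real numbers with `|a m - a n| ≥ δ`, in particular for any
sequence of different integers, and `f n x = ξ * x ^ (k n)` on `[a, b]`, `a > 1`, for any sequence of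
different positive integers `k n`.
-/

set_option autoImplicit false

namespace Pool.Agent.N24.KM

open MeasureTheory Filter Topology Pool.Agent.N24.RW

/-- the hypothesis of Koksma's theorem -/
def Koksma (a b : ℝ) (f : ℕ → ℝ → ℝ) : Prop :=
  (∀ n, ContDiff ℝ 2 (f n)) ∧ ∃ δ : ℝ, 0 < δ ∧ ∀ m n : ℕ, m ≠ n →
    (∀ x ∈ Set.Icc a b, δ ≤ |deriv (f m) x - deriv (f n) x|) ∧
    ((∀ x ∈ Set.Icc a b, deriv (deriv (f n)) x ≤ deriv (deriv (f m)) x) ∨
      ∀ x ∈ Set.Icc a b, deriv (deriv (f m)) x ≤ deriv (deriv (f n)) x)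

section

variable {ι : Type} [Fintype ι]

/-- the sequence `c` of integral vectors is in `B` only at a set of times of density zero -/
def Rarely (c : ℕ → ι → ℤ) (B : Set (ι → ℤ)) : Prop :=
  Tendsto (fun N : ℕ => (({n : ℕ | n < N ∧ c n ∈ B}.ncard : ℕ) : ℝ) / (N : ℝ)) atTop (𝓝 0)

/-- `B` is rarely visited by almost all metric sequences: by the vectors of the integral parts of
`f i n (α i)`, for all Koksma sequences `f i` and almost all `α` in the box; by the vectors of the
integral parts of `a i n * α i` for all sequences of real numbers `a i n`, `n = 0, 1, ...`, with mutual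
distances at least `δ` and almost all `α`; and by those of `ξ i * α i ^ k n` for all sequences `k` of
different natural numbers, all `ξ i ≠ 0` and almost all `α` with `α i > 1` -/
def Metric (B : Set (ι → ℤ)) : Prop :=
  (∀ (a b : ι → ℝ) (f : ι → ℕ → ℝ → ℝ), (∀ i, a i < b i) → (∀ i, Koksma (a i) (b i) (f i)) →
    ∀ᵐ α : ι → ℝ, (∀ i, α i ∈ Set.Icc (a i) (b i)) → Rarely (fun n i => ⌊f i n (α i)⌋) B) ∧
  (∀ (a : ι → ℕ → ℝ) (δ : ℝ), 0 < δ → (∀ i m n, m ≠ n → δ ≤ |a i m - a i n|) →
    ∀ᵐ α : ι → ℝ, Rarely (fun n i => ⌊a i n * α i⌋) B) ∧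
  (∀ (k : ℕ → ℕ) (ξ : ι → ℝ), Function.Injective k → (∀ i, ξ i ≠ 0) →
    ∀ᵐ α : ι → ℝ, (∀ i, 1 < α i) → Rarely (fun n i => ⌊ξ i * α i ^ k n⌋) B)

end

end Pool.Agent.N24.KM
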