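import Pool.Agent.N24.KM.Stm

/-! # The first derivative test -/

set_option autoImplicit false

namespace Pool.Agent.N24.KM

open MeasureTheory Filter Topology

theorem int_e_norm (x : ℝ) : ‖e x‖ = 1 := by
  unfold e
  have : (2 * (Real.pi : ℂ) * (x : ℂ) * Complex.I) = ((2 * Real.pi * x : ℝ) : ℂ) * Complex.I := by
    push_cast
    ring
  rw [this, Complex.norm_exp_ofReal_mul_I]

theorem int_e_deriv {g : ℝ → ℝ} {w x : ℝ} (h : HasDerivAt g w x) :
    HasDerivAt (fun y => e (g y)) (e (g x) * (2 * Real.pi * w * Complex.I)) x := by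
  unfold e
  have h1 : HasDerivAt (fun y : ℝ => ((g y : ℝ) : ℂ)) ((w : ℝ) : ℂ) x := h.ofReal_comp
  have h2 := ((h1.const_mul (2 * (Real.pi : ℂ))).mul_const Complex.I).cexp
  exact h2

theorem int_e_cont : Continuous e := by
  unfold e
  fun_prop

theorem t_INT : S_INT := by
  intro a b g hab hg hne hs
  have hg1 : ContDiff ℝ 1 (deriv g) := by
    have h2 : ContDiff ℝ (1 + 1) g := by
      rw [one_add_one_eq_two]
      exact hg
    exact (contDiff_succ_iff_deriv.1 h2).2.2
  have hg0 : Continuous (deriv (deriv g)) := hg1.continuous_deriv le_rfl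
  have hcw : Continuous (deriv g) := hg1.continuous
  have hw : ∀ x, HasDerivAt g (deriv g x) x := fun x =>
    ((hg.differentiable (by norm_num)) x).hasDerivAt
  have hw' : ∀ x, HasDerivAt (deriv g) (deriv (deriv g) x) x := fun x =>
    ((hg1.differentiable (by norm_num)) x).hasDerivAt
  set w := deriv g with hwdef
  set w' := deriv w with hw'def
  have hu : Set.uIcc a b = Set.Icc a b := Set.uIcc_of_le hab.le
  have hpi : (0 : ℝ) < 2 * Real.pi := by positivity
  have hpiC : (2 * (Real.pi : ℂ) * Complex.I) ≠ 0 := by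
    simp [Real.pi_ne_zero]
  -- the primitive
  let F : ℝ → ℂ := fun x => e (g x) / (2 * Real.pi * Complex.I * (w x : ℂ))
  let R : ℝ → ℂ := fun x => e (g x) * (w' x : ℂ) / (2 * Real.pi * Complex.I * (w x : ℂ) ^ 2)
  have hwC : ∀ x ∈ Set.Icc a b, ((w x : ℝ) : ℂ) ≠ 0 := fun x hx =>
    Complex.ofReal_ne_zero.2 (hne x hx)
  have hF : ∀ x ∈ Set.uIcc a b, HasDerivAt F (e (g x) - R x) x := by
    intro x hx
    rw [hu] at hx
    have h1 := int_e_deriv (hw x)
    have h2 : HasDerivAt (fun y : ℝ => 2 * Real.pi * Complex.I * ((w y : ℝ) : ℂ))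
        (2 * Real.pi * Complex.I * ((w' x : ℝ) : ℂ)) x := (hw' x).ofReal_comp.const_mul _
    have h3 := h1.div h2 (mul_ne_zero hpiC (hwC x hx))
    refine h3.congr_deriv ?_
    have h4 := hwC x hx
    simp only [R]
    field_simp
  have hec : Continuous (fun x => e (g x)) := int_e_cont.comp hg.continuous
  have hRc : ContinuousOn R (Set.uIcc a b) := by
    rw [hu]
    refine ContinuousOn.div ?_ ?_ ?_
    · exact (hec.mul (Complex.continuous_ofReal.comp hg0)).continuousOn
    · exact (continuous_const.mul ((Complex.continuous_ofReal.comp hcw).pow 2)).continuousOn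
    · intro x hx
      exact mul_ne_zero hpiC (pow_ne_zero 2 (hwC x hx))
  have hRi : IntervalIntegrable R volume a b := hRc.intervalIntegrable
  have hei : IntervalIntegrable (fun x => e (g x)) volume a b := hec.intervalIntegrable a b
  have hint : ∫ x in a..b, (e (g x) - R x) = F b - F a :=
    intervalIntegral.integral_eq_sub_of_hasDerivAt hF (hei.sub hRi)
  rw [intervalIntegral.integral_sub hei hRi] at hint
  have hmain : ∫ x in a..b, e (g x) = F b - F a + ∫ x in a..b, R x := by
    rw [← hint]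
    ring
  have hFn : ∀ x, ‖F x‖ = 1 / (2 * Real.pi) * (1 / |w x|) := by
    intro x
    simp only [F]
    rw [norm_div, int_e_norm, norm_mul, norm_mul, norm_mul, Complex.norm_I, Complex.norm_real,
      Complex.norm_real, Real.norm_eq_abs, Real.norm_eq_abs, abs_of_pos Real.pi_pos]
    simp
    ring
  -- the remaining integral
  have hq : ∀ x ∈ Set.uIcc a b, HasDerivAt (fun y => -(w y)⁻¹) (w' x / (w x) ^ 2) x := by
    intro x hx
    rw [hu] at hx
    have h1 := ((hw' x).inv (hne x hx)).neg
    refine h1.congr_deriv ?_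
    ring
  have hqc : ContinuousOn (fun x => w' x / (w x) ^ 2) (Set.uIcc a b) := by
    rw [hu]
    refine ContinuousOn.div hg0.continuousOn (hcw.pow 2).continuousOn ?_
    intro x hx
    exact pow_ne_zero 2 (hne x hx)
  have hqi : ∫ x in a..b, w' x / (w x) ^ 2 = (w a)⁻¹ - (w b)⁻¹ := by
    rw [intervalIntegral.integral_eq_sub_of_hasDerivAt hq hqc.intervalIntegrable]
    ring
  have hRn : ∀ x, ‖R x‖ = 1 / (2 * Real.pi) * |w' x / (w x) ^ 2| := by
    intro x
    simp only [R]
    rw [norm_div, norm_mul, int_e_norm, norm_mul, norm_mul, norm_mul, norm_pow, Complex.norm_I,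
      Complex.norm_real, Complex.norm_real, Complex.norm_real, Real.norm_eq_abs,
      Real.norm_eq_abs, Real.norm_eq_abs, abs_of_pos Real.pi_pos, abs_div, abs_pow]
    simp
    ring
  have habs : ∫ x in a..b, |w' x / (w x) ^ 2| = |(w a)⁻¹ - (w b)⁻¹| := by
    rcases hs with hs | hs
    · have h1 : ∫ x in a..b, |w' x / (w x) ^ 2| = ∫ x in a..b, w' x / (w x) ^ 2 := by
        refine intervalIntegral.integral_congr fun x hx => ?_
        rw [hu] at hx
        exact abs_of_nonneg (div_nonneg (hs x hx) (sq_nonneg _))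
      have h2 : 0 ≤ ∫ x in a..b, w' x / (w x) ^ 2 := by
        refine intervalIntegral.integral_nonneg hab.le fun x hx => ?_
        exact div_nonneg (hs x hx) (sq_nonneg _)
      rw [h1, hqi] at *
      rw [hqi] at h2
      rw [abs_of_nonneg h2]
    · have h1 : ∫ x in a..b, |w' x / (w x) ^ 2| = -∫ x in a..b, w' x / (w x) ^ 2 := by
        rw [← intervalIntegral.integral_neg]
        refine intervalIntegral.integral_congr fun x hx => ?_
        rw [hu] at hx
        exact abs_of_nonpos (div_nonpos_of_nonpos_of_nonneg (hs x hx) (sq_nonneg _))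
      have h2 : 0 ≤ ∫ x in a..b, |w' x / (w x) ^ 2| :=
        intervalIntegral.integral_nonneg hab.le fun x _ => abs_nonneg _
      rw [h1, hqi] at h2
      rw [h1, hqi, abs_of_nonpos (by linarith)]
  have hRb : ‖∫ x in a..b, R x‖ ≤ 1 / (2 * Real.pi) * (1 / |w a| + 1 / |w b|) := by
    calc ‖∫ x in a..b, R x‖ ≤ ∫ x in a..b, ‖R x‖ :=
          intervalIntegral.norm_integral_le_integral_norm hab.le
      _ = 1 / (2 * Real.pi) * ∫ x in a..b, |w' x / (w x) ^ 2| := by
          rw [← intervalIntegral.integral_const_mul]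
          exact intervalIntegral.integral_congr fun x _ => hRn x
      _ = 1 / (2 * Real.pi) * |(w a)⁻¹ - (w b)⁻¹| := by rw [habs]
      _ ≤ 1 / (2 * Real.pi) * (1 / |w a| + 1 / |w b|) := by
          refine mul_le_mul_of_nonneg_left ?_ (by positivity)
          refine (abs_sub _ _).trans ?_
          rw [abs_inv, abs_inv, one_div, one_div]
  rw [hmain]
  have hA : 0 ≤ 1 / |w a| + 1 / |w b| := by positivity
  calc ‖F b - F a + ∫ x in a..b, R x‖ ≤ ‖F b - F a‖ + ‖∫ x in a..b, R x‖ := norm_add_le _ _
    _ ≤ (‖F b‖ + ‖F a‖) + 1 / (2 * Real.pi) * (1 / |w a| + 1 / |w b|) :=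
        add_le_add (norm_sub_le _ _) hRb
    _ = 1 / Real.pi * (1 / |w a| + 1 / |w b|) := by
        rw [hFn, hFn]
        have := Real.pi_ne_zero
        field_simp
        ring
    _ ≤ 1 * (1 / |w a| + 1 / |w b|) := by
        refine mul_le_mul_of_nonneg_right ?_ hA
        rw [div_le_one Real.pi_pos]
        linarith [Real.pi_gt_three]
    _ = _ := one_mul _

end Pool.Agent.N24.KM
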