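import Pool.Agent.N24.KM.Defs

/-!
# Metric sequences of integral vectors: statements
-/

set_option autoImplicit false

namespace Pool.Agent.N24.KM

open MeasureTheory Filter Topology Pool.Agent.N24.RW

/-- `e(x)` -/
noncomputable def e (x : ℝ) : ℂ := Complex.exp (2 * Real.pi * x * Complex.I)

/-- **INT.** the first derivative test -/
def S_INT : Prop := ∀ (a b : ℝ) (g : ℝ → ℝ), a < b → ContDiff ℝ 2 g →
  (∀ x ∈ Set.Icc a b, deriv g x ≠ 0) →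
  ((∀ x ∈ Set.Icc a b, 0 ≤ deriv (deriv g) x) ∨ ∀ x ∈ Set.Icc a b, deriv (deriv g) x ≤ 0) →
  ‖∫ x in a..b, e (g x)‖ ≤ 1 / |deriv g a| + 1 / |deriv g b|

/-- **SEP.** reciprocals of the distances in a separated sequence -/
def S_SEP : Prop := ∀ (y : ℕ → ℝ) (δ : ℝ), 0 < δ → (∀ m n, m ≠ n → δ ≤ |y m - y n|) →
  ∀ m N : ℕ, ∑ n ∈ (Finset.range N).filter (fun n => n ≠ m), 1 / |y m - y n| ≤
    4 / δ * Real.sqrt N

/-- **AE.** almost everywhere convergence from the second moment -/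
def S_AE : Prop := ∀ (X : Type) [MeasurableSpace X] (μ : Measure X) [IsFiniteMeasure μ]
  (u : ℕ → X → ℂ) (C : ℝ), (∀ n, Measurable (u n)) → (∀ n x, ‖u n x‖ ≤ 1) →
  (∀ N : ℕ, ∫ x, ‖∑ n ∈ Finset.range N, u n x‖ ^ 2 ∂μ ≤ C * (N : ℝ) * Real.sqrt N) →
  ∀ᵐ x ∂μ, Tendsto (fun N : ℕ => (1 / (N : ℂ)) * ∑ n ∈ Finset.range N, u n x) atTop (𝓝 0)

/-- **TOR.** from exponential sums to residue classes of the integral parts -/
def S_TOR : Prop := ∀ (ι : Type) [Fintype ι] (q : ℕ), 0 < q → ∀ x : ℕ → ι → ℝ,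
  (∀ h : ι → ℤ, h ≠ 0 → Tendsto (fun N : ℕ => (1 / (N : ℂ)) * ∑ n ∈ Finset.range N,
    e (∑ i, (h i : ℝ) * x n i / q)) atTop (𝓝 0)) →
  ∀ (c : ι → ZMod q) (ε : ℝ), 0 < ε → ∀ᶠ N : ℕ in atTop,
    (({n : ℕ | n < N ∧ ∀ i, ((⌊x n i⌋ : ℤ) : ZMod q) = c i}.ncard : ℕ) : ℝ) ≤
      (((q : ℝ) ^ Fintype.card ι)⁻¹ + ε) * N

/-- **KOK.** the first part of `Metric` -/
def S_KOK : Prop := ∀ (ι : Type) [Fintype ι] (B : Set (ι → ℤ)), ProNull B →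
  ∀ (a b : ι → ℝ) (f : ι → ℕ → ℝ → ℝ), (∀ i, a i < b i) → (∀ i, Koksma (a i) (b i) (f i)) →
    ∀ᵐ α : ι → ℝ, (∀ i, α i ∈ Set.Icc (a i) (b i)) → Rarely (fun n i => ⌊f i n (α i)⌋) B

/-- **WEY.** Koksma's theorem in several variables: the exponential sums -/
def S_WEY : Prop := ∀ (ι : Type) [Fintype ι] (a b : ι → ℝ) (f : ι → ℕ → ℝ → ℝ),
  (∀ i, a i < b i) → (∀ i, Koksma (a i) (b i) (f i)) → ∀ t : ι → ℝ, t ≠ 0 →
    ∀ᵐ α : ι → ℝ, (∀ i, α i ∈ Set.Icc (a i) (b i)) →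
      Tendsto (fun N : ℕ => (1 / (N : ℂ)) * ∑ n ∈ Finset.range N, e (∑ i, t i * f i n (α i)))
        atTop (𝓝 0)

/-- **main theorem** -/
def S_MET : Prop := ∀ (ι : Type) [Fintype ι] (B : Set (ι → ℤ)), ProNull B → Metric B

end Pool.Agent.N24.KM
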